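import Mathlib

/-!
# MP_f1a2b2_co: a word whose shift orbit closure contains no self-shuffling word

The word over four letters whose `n`-th letter records `n mod 2` and the `n`-th paperfolding bit has
the property that every factor of length `2 ^ k` determines its position modulo `2 ^ (k + 1)`.
In a self-shuffle of an element of the orbit closure all blocks would then have lengths
divisible by every power of two.
-/

set_option autoImplicit false

open Set

namespace Pool.Agent.Results.MP_f1a2b2_co.NoSelfShuffle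

/-- `x` is self-shuffling: `ℕ` is the disjoint union of two infinite sets `I` and `Iᶜ` such that
reading `x` along `I` in increasing order gives `x`, and reading `x` along `Iᶜ` also gives `x`. -/
def SelfShuffling {A : Type} (x : ℕ → A) : Prop :=
  ∃ I : Set ℕ, I.Infinite ∧ Iᶜ.Infinite ∧
    (∀ n, x (Nat.nth (fun m => m ∈ I) n) = x n) ∧
    (∀ n, x (Nat.nth (fun m => m ∈ Iᶜ) n) = x n)

/-- The shift orbit closure of `x`: the closure of `{T^n x : n ≥ 0}` in `A^ℕ` with the product
topology (`A` is a finite discrete space). -/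
def orbitClosure {A : Type} [TopologicalSpace A] (x : ℕ → A) : Set (ℕ → A) :=
  closure (Set.range fun n : ℕ => fun i : ℕ => x (i + n))

/-- paperfolding bit: `pf (2^k (2a+1)) = a mod 2` -/
def pf : ℕ → ℕ
  | 0 => 0
  | (n + 1) => if (n + 1) % 2 = 1 then ((n + 1) / 2) % 2 else pf ((n + 1) / 2)
decreasing_by omega

theorem pf_odd (a : ℕ) : pf (2 * a + 1) = a % 2 := by
  rw [pf]
  have h1 : (2 * a + 1) % 2 = 1 := by omega
  have h2 : (2 * a + 1) / 2 = a := by omega
  rw [if_pos h1, h2]

theorem pf_even (a : ℕ) : pf (2 * a) = pf a := by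
  cases a with
  | zero => rfl
  | succ n =>
    have h : 2 * (n + 1) = (2 * n + 1) + 1 := by ring
    rw [h, pf]
    have h1 : ¬ (2 * n + 1 + 1) % 2 = 1 := by omega
    have h2 : (2 * n + 1 + 1) / 2 = n + 1 := by omega
    rw [if_neg h1, h2]

theorem pf_pow (k a : ℕ) : pf (2 ^ k * (2 * a + 1)) = a % 2 := by
  induction k with
  | zero => simpa using pf_odd a
  | succ k ih =>
    have : 2 ^ (k + 1) * (2 * a + 1) = 2 * (2 ^ k * (2 * a + 1)) := by ring
    rw [this, pf_even, ih]

/-- the word: letter `n mod 2 + 2 * pf n` -/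
def x (n : ℕ) : Fin 4 := Fin.ofNat 4 (n % 2 + 2 * (pf n % 2))

theorem x_val (n : ℕ) : (x n).val = n % 2 + 2 * (pf n % 2) := by
  simp only [x, Fin.ofNat]
  omega

theorem x_par {p q : ℕ} (h : x p = x q) : p % 2 = q % 2 ∧ pf p % 2 = pf q % 2 := by
  have h' := congrArg Fin.val h
  rw [x_val, x_val] at h'
  omega

theorem exists_res (M r p : ℕ) (hM : 0 < M) (hr : r < M) : ∃ i < M, (p + i) % M = r := by
  refine ⟨(r + (M - p % M)) % M, Nat.mod_lt _ hM, ?_⟩
  have hlt : p % M < M := Nat.mod_lt _ hM
  have hdiv : M * (p / M) + p % M = p := Nat.div_add_mod p M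
  rw [Nat.add_mod, Nat.mod_mod, ← Nat.add_mod]
  have : p + (r + (M - p % M)) = r + M * (p / M + 1) := by
    have : M * (p / M + 1) = M * (p / M) + M := by ring
    omega
  rw [this, Nat.add_mul_mod_self_left]
  exact Nat.mod_eq_of_lt hr

/-- every factor of length `2^k` determines its position mod `2^(k+1)` -/
theorem window (k : ℕ) : ∀ p q : ℕ, (∀ i < 2 ^ k, x (p + i) = x (q + i)) →
    p ≡ q [MOD 2 ^ (k + 1)] := by
  induction k with
  | zero =>
    intro p q h
    have := (x_par (h 0 (by norm_num))).1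
    simpa [Nat.ModEq] using this
  | succ k ih =>
    intro p q h
    have hpow : 2 ^ (k + 1) = 2 * 2 ^ k := by rw [pow_succ]; ring
    have hpos : 0 < 2 ^ k := by positivity
    have hpq : p ≡ q [MOD 2 ^ (k + 1)] := ih p q (fun i hi => h i (by omega))
    obtain ⟨i, hi, hr⟩ := exists_res (2 ^ (k + 1)) (2 ^ k) p (by positivity) (by omega)
    have hqi : (q + i) % 2 ^ (k + 1) = 2 ^ k := by
      rw [← hr]
      exact (hpq.add_right i).symm
    have e1 := Nat.div_add_mod (p + i) (2 ^ (k + 1))
    have e2 := Nat.div_add_mod (q + i) (2 ^ (k + 1))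
    rw [hr] at e1
    rw [hqi] at e2
    set a := (p + i) / 2 ^ (k + 1)
    set b := (q + i) / 2 ^ (k + 1)
    have f1 : p + i = 2 ^ k * (2 * a + 1) := by rw [← e1, hpow]; ring
    have f2 : q + i = 2 ^ k * (2 * b + 1) := by rw [← e2, hpow]; ring
    have hx := (x_par (h i hi)).2
    rw [f1, f2, pf_pow, pf_pow] at hx
    have hab : a % 2 = b % 2 := by omega
    have hpi : p + i ≡ q + i [MOD 2 ^ (k + 1 + 1)] := by
      rw [f1, f2]
      have : 2 ^ (k + 1 + 1) = 2 ^ k * 4 := by rw [pow_succ, pow_succ]; ring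
      rw [this]
      apply Nat.ModEq.mul_left'
      unfold Nat.ModEq
      omega
    exact Nat.ModEq.add_right_cancel' i hpi

/-- elements of the orbit closure inherit the window property -/
theorem window_closure (y : ℕ → Fin 4) (hy : y ∈ orbitClosure x) (k p q : ℕ)
    (h : ∀ i < 2 ^ k, y (p + i) = y (q + i)) : p ≡ q [MOD 2 ^ (k + 1)] := by
  have hN : ∀ N : ℕ, ∃ t : ℕ, ∀ i < N, y i = x (i + t) := by
    intro N
    have hopen : IsOpen {z : ℕ → Fin 4 | ∀ i < N, z i = y i} := by
      have : {z : ℕ → Fin 4 | ∀ i < N, z i = y i} =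
          ⋂ i ∈ Finset.range N, (fun z : ℕ → Fin 4 => z i) ⁻¹' {y i} := by
        ext z; simp
      rw [this]
      exact isOpen_biInter_finset fun i _ =>
        (isOpen_discrete _).preimage (continuous_apply i)
    obtain ⟨z, hz, t, rfl⟩ := mem_closure_iff.1 hy _ hopen (by simp)
    exact ⟨t, fun i hi => (hz i hi).symm⟩
  obtain ⟨t, ht⟩ := hN (p + q + 2 ^ k)
  have := window k (p + t) (q + t) (fun i hi => by
    have h1 := ht (p + i) (by omega)
    have h2 := ht (q + i) (by omega)
    have h3 := h i hi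
    rw [h1, h2] at h3
    have e1 : p + t + i = p + i + t := by ring
    have e2 : q + t + i = q + i + t := by ring
    rw [e1, e2, h3])
  exact Nat.ModEq.add_right_cancel' t this

/-- One step of the divisibility argument: `a` counts the elements of `I`, `b` those of `Iᶜ`. -/
theorem step (y : ℕ → Fin 4)
    (hw : ∀ k p q : ℕ, (∀ i < 2 ^ k, y (p + i) = y (q + i)) → p ≡ q [MOD 2 ^ (k + 1)])
    (I : Set ℕ) (hJ : Iᶜ.Infinite) (a b : ℕ → ℕ) (ab : ∀ m, a m + b m = m)
    (aJ : ∀ m, m ∉ I → a (m + 1) = a m)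
    (b0 : b 0 = 0) (bI : ∀ m, m ∈ I → b (m + 1) = b m)
    (h1 : ∀ m, m ∈ I → y m = y (a m)) (k : ℕ) (ih : ∀ m, m ∉ I → 2 ^ k ∣ a m) :
    ∀ m, m ∈ I → 2 ^ (k + 1) ∣ b m := by
  intro m hm
  have hpos : 0 < 2 ^ k := by positivity
  -- constancy of `b` along a run
  have run : ∀ s d : ℕ, (∀ t, s ≤ t → t < s + d → t ∈ I) → b (s + d) = b s := by
    intro s d
    induction d with
    | zero => intro _; rfl
    | succ d ihd =>
      intro h
      rw [← Nat.add_assoc, bI _ (h _ (by omega) (by omega)), ihd (fun t h1 h2 => h t h1 (by omega))]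
  by_cases hall : ∀ j, j < m → j ∈ I
  · have := run 0 m (fun t _ ht => hall t (by omega))
    rw [Nat.zero_add] at this
    rw [this, b0]
    exact dvd_zero _
  · push Not at hall
    -- the last index before `m` outside `I`
    obtain ⟨j, hjm, hjI, hj⟩ : ∃ j < m, j ∉ I ∧ ∀ t, j < t → t ≤ m → t ∈ I := by
      classical
      let S := (Finset.range m).filter (fun j => j ∉ I)
      have hS : S.Nonempty := by
        obtain ⟨j, h1, h2⟩ := hall
        exact ⟨j, by simp [S, h1, h2]⟩
      refine ⟨S.max' hS, ?_, ?_, ?_⟩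
      · have := S.max'_mem hS
        simp only [S, Finset.mem_filter, Finset.mem_range] at this
        exact this.1
      · have := S.max'_mem hS
        simp only [S, Finset.mem_filter, Finset.mem_range] at this
        exact this.2
      · intro t h1 h2
        by_contra h3
        rcases Nat.lt_or_eq_of_le h2 with h4 | h4
        · have : t ∈ S := by simp [S, h3, h4]
          have := S.le_max' t this
          omega
        · exact h3 (h4 ▸ hm)
    -- the first index after `m` outside `I`
    obtain ⟨e, hme, heI, he⟩ : ∃ e, m < e ∧ e ∉ I ∧ ∀ t, m ≤ t → t < e → t ∈ I := by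
      classical
      obtain ⟨e0, he0, hlt⟩ := hJ.exists_gt m
      have hex : ∃ e, m < e ∧ e ∉ I := ⟨e0, hlt, he0⟩
      refine ⟨Nat.find hex, (Nat.find_spec hex).1, (Nat.find_spec hex).2, ?_⟩
      intro t h1 h2
      by_contra h3
      rcases Nat.lt_or_eq_of_le h1 with h4 | h4
      · exact Nat.find_min hex h2 ⟨h4, h3⟩
      · exact h3 (h4 ▸ hm)
    have hin : ∀ t, j + 1 ≤ t → t < e → t ∈ I := by
      intro t h1 h2
      rcases Nat.lt_or_ge m t with h3 | h3
      · exact he t h3.le h2
      · exact hj t (by omega) h3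
    have hb : ∀ d, j + 1 + d ≤ e → b (j + 1 + d) = b (j + 1) := fun d hd =>
      run (j + 1) d (fun t h1 h2 => hin t h1 (by omega))
    have haj : a (j + 1) = a j := aJ j hjI
    have d1 : 2 ^ k ∣ a (j + 1) := haj ▸ ih j hjI
    have d2 : 2 ^ k ∣ a e := ih e heI
    have hbe : b e = b (j + 1) := by
      have := hb (e - (j + 1)) (by omega)
      rwa [show j + 1 + (e - (j + 1)) = e by omega] at this
    have hae : a e = a (j + 1) + (e - (j + 1)) := by
      have h1 := ab e
      have h2 := ab (j + 1)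
      omega
    have d3 : 2 ^ k ∣ e - (j + 1) := by
      rw [hae] at d2
      exact (Nat.dvd_add_right d1).1 d2
    have hlen : 2 ^ k ≤ e - (j + 1) := Nat.le_of_dvd (by omega) d3
    have hwin := hw k (j + 1) (a (j + 1)) (fun i hi => by
      have hmem := hin (j + 1 + i) (by omega) (by omega)
      have h2 := ab (j + 1 + i)
      have h3 := ab (j + 1)
      have h4 := hb i (by omega)
      have h5 : a (j + 1 + i) = a (j + 1) + i := by omega
      rw [h1 _ hmem, h5])
    have hbm : b m = b (j + 1) := by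
      have := hb (m - (j + 1)) (by omega)
      rwa [show j + 1 + (m - (j + 1)) = m by omega] at this
    rw [hbm]
    have h3 := ab (j + 1)
    have h6 : b (j + 1) = (j + 1) - a (j + 1) := by omega
    rw [h6]
    exact (Nat.modEq_iff_dvd' (by omega)).1 hwin.symm

/-- main argument, in terms of the counting functions `a` of `I` and `b` of its complement -/
theorem no_shuffle (y : ℕ → Fin 4)
    (hw : ∀ k p q : ℕ, (∀ i < 2 ^ k, y (p + i) = y (q + i)) → p ≡ q [MOD 2 ^ (k + 1)])
    (I : Set ℕ) (hI : I.Infinite) (hJ : Iᶜ.Infinite) (a b : ℕ → ℕ) (a0 : a 0 = 0) (b0 : b 0 = 0)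
    (aI : ∀ m, m ∈ I → a (m + 1) = a m + 1) (aJ : ∀ m, m ∉ I → a (m + 1) = a m)
    (bI : ∀ m, m ∈ I → b (m + 1) = b m) (bJ : ∀ m, m ∉ I → b (m + 1) = b m + 1)
    (bmono : Monotone b)
    (h1 : ∀ m, m ∈ I → y m = y (a m)) (h2 : ∀ m, m ∉ I → y m = y (b m)) : False := by
  have ab : ∀ m, a m + b m = m := fun m => by
    induction m with
    | zero => omega
    | succ m ih =>
      by_cases h : m ∈ I
      · rw [aI m h, bI m h]; omega
      · rw [aJ m h, bJ m h]; omega
  have key : ∀ k : ℕ, (∀ m, m ∈ I → 2 ^ k ∣ b m) ∧ (∀ m, m ∉ I → 2 ^ k ∣ a m) := by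
    intro k
    induction k with
    | zero => simp
    | succ k ih =>
      obtain ⟨ihI, ihJ⟩ := ih
      refine ⟨step y hw I hJ a b ab aJ b0 bI h1 k ihJ, ?_⟩
      intro m hm
      refine step y hw Iᶜ (by rwa [compl_compl]) b a (fun m => by rw [Nat.add_comm]; exact ab m)
        (fun m h => bI m (by simpa using h)) a0
        (fun m h => aJ m h) (fun m h => h2 m h) k (fun m h => ihI m (by simpa using h)) m hm
  -- contradiction
  obtain ⟨m', hm'⟩ := hJ.nonempty
  obtain ⟨m, hm, hlt⟩ := hI.exists_gt m'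
  have hbm : 0 < b m := by
    have : b (m' + 1) ≤ b m := bmono hlt
    rw [bJ m' hm'] at this
    omega
  have := (key (b m)).1 m hm
  have := Nat.le_of_dvd hbm this
  have := (Nat.lt_two_pow_self (n := b m))
  omega

/-- **MP_f1a2b2_co, Q1 (answer: yes).** There is a word `x` over a four-letter alphabet such that
no element of its shift orbit closure is self-shuffling. -/
theorem result : ∃ x : ℕ → Fin 4, ∀ y ∈ orbitClosure x, ¬ SelfShuffling y := by
  classical
  refine ⟨x, fun y hy hsh => ?_⟩
  obtain ⟨I, hI, hJ, h1, h2⟩ := hsh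
  refine no_shuffle y (fun k p q h => window_closure y hy k p q h) I hI hJ
    (Nat.count (fun m => m ∈ I)) (Nat.count (fun m => m ∈ Iᶜ)) (Nat.count_zero _)
    (Nat.count_zero _) ?_ ?_ ?_ ?_ (Nat.count_monotone _) ?_ ?_
  · intro m h; rw [Nat.count_succ, if_pos h]
  · intro m h; rw [Nat.count_succ, if_neg h]; rfl
  · intro m h; rw [Nat.count_succ, if_neg (fun h' => h' h)]; rfl
  · intro m h; rw [Nat.count_succ, if_pos (show m ∈ Iᶜ from h)]
  · intro m hm
    have := h1 (Nat.count (fun m => m ∈ I) m)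
    rwa [Nat.nth_count (p := fun m => m ∈ I) hm] at this
  · intro m hm
    have := h2 (Nat.count (fun m => m ∈ Iᶜ) m)
    rwa [Nat.nth_count (p := fun m => m ∈ Iᶜ) hm] at this

end Pool.Agent.Results.MP_f1a2b2_co.NoSelfShuffle
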